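import Pool.Agent.H8.AV3.Stmts4

/-!
# SCC: scaling of the classes of forms of points
-/

set_option autoImplicit false

namespace Pool.Agent.H18.AV3B

open Polynomial Matrix Pool.AVR Pool.AV3

theorem eqv_unscale {K : Type} [Field K] {g : Matrix (Fin 3) (Fin 3) K} {t : K} (ht : t ≠ 0)
    {c c' : Fin 10 → K} (h : Eqv g (t • c) c') : Eqv g c (t⁻¹ • c') := by
  refine ⟨h.1, ?_⟩
  have h2 := h.2
  rw [tsub_smul_form] at h2
  calc tsub c g = t⁻¹ • (t • tsub c g) := by rw [smul_smul, inv_mul_cancel₀ ht, one_smul]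
    _ = t⁻¹ • (g.det • c') := by rw [h2]
    _ = g.det • (t⁻¹ • c') := by rw [smul_comm]

theorem ns_scale {K : Type} [Field K] {a b c x y t : K} (ht : t ≠ 0)
    (h : (E a b c).toAffine.Nonsingular x y) :
    (E (a / t ^ 2) (b / t ^ 4) (c / t ^ 6)).toAffine.Nonsingular (x / t ^ 2) (y / t ^ 3) := by
  rw [WeierstrassCurve.Affine.nonsingular_iff'] at h ⊢
  rw [WeierstrassCurve.Affine.equation_iff] at h ⊢
  simp only [E, zero_mul, add_zero] at h ⊢
  obtain ⟨h1, h2⟩ := h
  refine ⟨?_, ?_⟩
  · field_simp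
    linear_combination h1
  · rcases h2 with h2 | h2
    · left
      intro h3
      apply h2
      field_simp at h3
      linear_combination h3
    · right
      intro h3
      apply h2
      field_simp at h3
      linear_combination h3

theorem scc_thm (hSCL : Pool.AV3.SCLStmt) : Pool.AV3.SCCStmt := by
  intro L _ a b c t c₀ ht h
  obtain ⟨P, g, hg⟩ := h
  rcases P with _ | ⟨x, y, hP⟩
  · refine ⟨WeierstrassCurve.Affine.Point.zero, _, eqv_unscale ht
      ((Eqv_FO_scale a b c t ht).symm.trans hg)⟩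
  · refine ⟨WeierstrassCurve.Affine.Point.some _ _ (ns_scale ht hP), _, eqv_unscale ht
      ((hSCL L a b x y t ht).symm.trans hg)⟩

end Pool.Agent.H18.AV3B
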