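import Pool.Agent.H8.AV3.Stmts4

/-!
# NSU: the number of normal forms with Jacobian in a set
-/

set_option autoImplicit false

namespace Pool.Agent.H18.AV3B

open Polynomial Matrix Pool.AVR Pool.AV3

/-- Reassociation of the parameters. -/
def e6 {R : Type} (q : (R × R × R × R × R) × R) : R × R × R × R × R × R :=
  (q.1.1, q.1.2.1, q.1.2.2.1, q.1.2.2.2.1, q.1.2.2.2.2, q.2)

theorem e6_inj {R : Type} : Function.Injective (e6 (R := R)) := by
  rintro ⟨⟨a, b, c, d, e⟩, f⟩ ⟨⟨a', b', c', d', e'⟩, f'⟩ h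
  simp only [e6, Prod.mk.injEq] at h ⊢
  tauto

theorem sh_mem {R : Type} [CommRing R] {A : Set (R × R × R)} (hA : ShInv A) (η : R)
    (f : R × R × R) : sh η f ∈ A ↔ f ∈ A := by
  constructor
  · intro h
    have h1 := hA _ h (-η)
    rw [sh_sh, neg_add_cancel, sh_zero] at h1
    exact h1
  · intro h
    exact hA _ h η

theorem nsu_thm (hNTE : Pool.AV3.NTEStmt) : Pool.AV3.NSUStmt := by
  classical
  intro R k _ _ φ τ hres A hA
  have : Finite R := hres.fin
  have : Fintype R := Fintype.ofFinite R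
  -- the big set
  set S : Set (R × R × R × R × R × R) := {p | (IsUnit p.1 ∨ IsUnit p.2.1) ∧
      sh p.2.2.2.2.2 (fsg τ p.1 p.2.1 p.2.2.1 p.2.2.2.1 p.2.2.2.2.1) ∈ A} with hS
  set P : Set (R × R × R × R × R) := {p | (IsUnit p.1 ∨ IsUnit p.2.1) ∧
      fsg τ p.1 p.2.1 p.2.2.1 p.2.2.2.1 p.2.2.2.2 ∈ A} with hP
  have h1 : S.ncard = P.ncard * Nat.card R := by
    have h2 : S = e6 '' (P ×ˢ (Set.univ : Set R)) := by
      ext ⟨a, b, c, d, e, f⟩
      constructor
      · intro h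
        refine ⟨((a, b, c, d, e), f), ⟨?_, Set.mem_univ _⟩, rfl⟩
        exact ⟨h.1, (sh_mem hA _ _).1 h.2⟩
      · rintro ⟨⟨⟨a', b', c', d', e'⟩, f'⟩, ⟨h, -⟩, h'⟩
        simp only [e6, Prod.mk.injEq] at h'
        obtain ⟨rfl, rfl, rfl, rfl, rfl, rfl⟩ := h'
        exact ⟨h.1, (sh_mem hA _ _).2 h.2⟩
    rw [h2, Set.ncard_image_of_injective _ e6_inj, Set.ncard_prod, Set.ncard_univ]
  have h3 : S.ncard = ∑ f ∈ A.toFinset, {p : R × R × R × R × R × R | (IsUnit p.1 ∨ IsUnit p.2.1) ∧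
      sh p.2.2.2.2.2 (fsg τ p.1 p.2.1 p.2.2.1 p.2.2.2.1 p.2.2.2.2.1) = f}.ncard := by
    rw [Set.ncard_eq_toFinset_card']
    rw [Finset.card_eq_sum_card_fiberwise (f := fun p : R × R × R × R × R × R =>
      sh p.2.2.2.2.2 (fsg τ p.1 p.2.1 p.2.2.1 p.2.2.2.1 p.2.2.2.2.1)) (t := A.toFinset)]
    · refine Finset.sum_congr rfl fun f hf => ?_
      rw [Set.ncard_eq_toFinset_card']
      congr 1
      ext p
      simp only [Finset.mem_filter, Set.mem_toFinset]
      rw [Set.mem_toFinset] at hf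
      constructor
      · rintro ⟨h4, h5⟩
        exact ⟨h4.1, h5⟩
      · rintro ⟨h4, h5⟩
        refine ⟨⟨h4, ?_⟩, h5⟩
        rw [h5]
        exact hf
    · intro p hp
      have h6 := Set.mem_toFinset.1 (Finset.mem_coe.1 hp)
      exact Finset.mem_coe.2 (Set.mem_toFinset.2 h6.2)
  have h4 : S.ncard * Nat.card k = {x : R | IsUnit x}.ncard * Nat.card R *
      ∑ᶠ f ∈ A, (Nat.card k * nET f + Nat.card R) := by
    rw [finsum_mem_eq_toFinset_sum, Finset.mul_sum, h3, Finset.sum_mul]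
    exact Finset.sum_congr rfl fun f _ => hNTE R k φ τ hres f
  have h5 : 0 < Nat.card R := Nat.card_pos
  rw [h1] at h4
  apply Nat.eq_of_mul_eq_mul_left h5
  calc Nat.card R * (P.ncard * Nat.card k) = P.ncard * Nat.card R * Nat.card k := by ring
    _ = _ := h4
    _ = _ := by ring

end Pool.Agent.H18.AV3B
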